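import Pool.Agent.Lib.MP_293cc0_an.Basic

/-!
# MP_293cc0_an, upper bound, module Metric (150 lines): from graphs to metric spaces

`GSp G` is `Fin n` with the distance `0` (equal), `2` (adjacent), `1` (otherwise). All distances are at most `2`.
If `GSp G` embeds into `ℓ_∞^d` by `f`, then the coordinate `f_i = (fun x => f x i)` is 1-Lipschitz (`dist_le_pi_dist`). Put (for nonempty `Fin n`) `c_i = min f_i`,
`A i = {x | f_i x = c_i}`, `B i = {x | f_i x = c_i + 2}`. For `a ∈ A i`, `b ∈ B i`: `2 = f_i b - f_i a ≤ dist a b`, so `a, b` are adjacent.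
If `x, y` are adjacent, then `dist (f x) (f y) = 2`, so `|f_i x - f_i y| = 2` for some `i` (`dist_pi_le_iff`, maximum over `Fin d`; `d ≥ 1` because otherwise the distance would be `0`);
say `f_i y = f_i x + 2`; for all `z`: `f_i y - f_i z ≤ 2`, so `f_i x ≤ f_i z`, so `f_i x = c_i`, `x ∈ A i`, `y ∈ B i`.

`le_dmin`: `dmin n` is in its defining set for `n ≥ 1` (`Nat.sInf_mem`; the set is nonempty because `Cov.emb` with `S = ∅`, `k = 0` gives `Emb X n`), so `GSp G` embeds into `ℓ_∞^(dmin n)`.
-/

set_option autoImplicit false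

namespace Pool.Agent.Lib.MP_293cc0_an.UB

open Finset

/-- the vertex set of a graph with its `{1, 2}`-metric -/
def GSp {n : ℕ} (_G : SimpleGraph (Fin n)) : Type := Fin n

open Classical in
/-- the `{1, 2}`-metric of a graph -/
noncomputable def gdist {n : ℕ} (G : SimpleGraph (Fin n)) (x y : Fin n) : ℝ :=
  if x = y then 0 else if G.Adj x y then 2 else 1

private theorem gdist_le {n : ℕ} (G : SimpleGraph (Fin n)) (x y : Fin n) : gdist G x y ≤ 2 := by
  unfold gdist
  split_ifs <;> norm_num

private theorem one_le_gdist {n : ℕ} (G : SimpleGraph (Fin n)) {x y : Fin n} (h : x ≠ y) :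
    1 ≤ gdist G x y := by
  unfold gdist
  rw [if_neg h]
  split_ifs <;> norm_num

private theorem gdist_comm {n : ℕ} (G : SimpleGraph (Fin n)) (x y : Fin n) :
    gdist G x y = gdist G y x := by
  unfold gdist
  rw [G.adj_comm]
  by_cases h : x = y
  · rw [if_pos h, if_pos h.symm]
  · have h' : ¬ y = x := fun e => h e.symm
    rw [if_neg h, if_neg h']

private theorem gdist_self {n : ℕ} (G : SimpleGraph (Fin n)) (x : Fin n) : gdist G x x = 0 := by
  unfold gdist
  rw [if_pos rfl]

noncomputable instance {n : ℕ} (G : SimpleGraph (Fin n)) : MetricSpace (GSp G) where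
  dist := fun x y => gdist G x y
  dist_self := by
    intro x; simp [gdist]
  dist_comm := by
    intro x y
    exact gdist_comm G x y
  dist_triangle := by
    intro x y z
    show gdist G x z ≤ gdist G x y + gdist G y z
    by_cases h1 : x = y
    · subst h1
      rw [gdist_self, zero_add]
    · by_cases h2 : y = z
      · subst h2
        rw [gdist_self, add_zero]
      · linarith [gdist_le G x z, one_le_gdist G h1, one_le_gdist G h2]
  eq_of_dist_eq_zero := by
    intro x y h
    by_contra hne
    have h1 : gdist G x y = 0 := h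
    linarith [one_le_gdist G hne]

theorem biclique_of_emb {n d : ℕ} (G : SimpleGraph (Fin n)) (h : Emb (GSp G) d) :
    ∃ A B : Fin d → Finset (Fin n), (∀ i, ∀ a ∈ A i, ∀ b ∈ B i, G.Adj a b) ∧
      ∀ x y, G.Adj x y → ∃ i, (x ∈ A i ∧ y ∈ B i) ∨ (y ∈ A i ∧ x ∈ B i) := by
  classical
  obtain ⟨f, hf⟩ := h
  have hf' : ∀ x y : Fin n, dist (f x) (f y) = gdist G x y := fun x y => hf x y
  have hc : ∀ (i : Fin d) (x y : Fin n), f x i - f y i ≤ gdist G x y := by
    intro i x y
    rw [← hf' x y]
    refine (le_abs_self _).trans ?_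
    rw [← Real.dist_eq]
    exact dist_le_pi_dist (f x) (f y) i
  refine ⟨fun i => univ.filter fun x : Fin n => ∀ z : Fin n, f x i ≤ f z i,
    fun i => univ.filter fun y : Fin n => ∃ x : Fin n, (∀ z : Fin n, f x i ≤ f z i) ∧
      f y i = f x i + 2, ?_, ?_⟩
  · intro i a ha b hb
    simp only [mem_filter, mem_univ, true_and] at ha hb
    obtain ⟨x, hx, hbx⟩ := hb
    have h1 := ha x
    have h3 := hc i b a
    have h4 : 2 ≤ gdist G b a := by linarith
    by_contra hadj
    unfold gdist at h4
    rw [G.adj_comm] at h4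
    rw [if_neg hadj] at h4
    split_ifs at h4 <;> norm_num at h4
  · intro x y hxy
    have hg : gdist G x y = 2 := by
      unfold gdist
      rw [if_neg hxy.ne, if_pos hxy]
    have h1 : ∃ i, 2 ≤ dist (f x i) (f y i) := by
      by_contra hcon
      push Not at hcon
      have h2 : dist (f x) (f y) < 2 := (dist_pi_lt_iff (by norm_num)).2 hcon
      rw [hf', hg] at h2
      exact lt_irrefl _ h2
    obtain ⟨i, hi⟩ := h1
    have key : ∀ u v : Fin n, 2 ≤ f v i - f u i → (∀ z : Fin n, f u i ≤ f z i) ∧
        f v i = f u i + 2 := by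
      intro u v huv
      constructor
      · intro z
        have h2 := hc i v z
        have h3 := gdist_le G v z
        linarith
      · have h2 := hc i v u
        have h3 := gdist_le G v u
        linarith
    refine ⟨i, ?_⟩
    simp only [mem_filter, mem_univ, true_and]
    rw [Real.dist_eq] at hi
    rcases le_abs.1 hi with h2 | h2
    · obtain ⟨h3, h4⟩ := key y x h2
      exact Or.inr ⟨h3, y, h3, h4⟩
    · obtain ⟨h3, h4⟩ := key x y (by linarith)
      exact Or.inl ⟨h3, x, h3, h4⟩

theorem biclique_dmin {n : ℕ} (hn : 1 ≤ n) (G : SimpleGraph (Fin n)) :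
    ∃ A B : Fin (dmin n) → Finset (Fin n), (∀ i, ∀ a ∈ A i, ∀ b ∈ B i, G.Adj a b) ∧
      ∀ x y, G.Adj x y → ∃ i, (x ∈ A i ∧ y ∈ B i) ∨ (y ∈ A i ∧ x ∈ B i) := by
  classical
  have hne : {d : ℕ | 1 ≤ d ∧ ∀ (X : Type) [MetricSpace X] [Fintype X],
      Fintype.card X = n → Emb X d}.Nonempty := by
    refine ⟨n, hn, ?_⟩
    intro X _ _ hX
    have h1 : Cov (∅ : Finset X) 0 := ⟨fun i => i.elim0, fun x hx => absurd hx (notMem_empty x)⟩
    have h2 := h1.emb
    rw [card_empty, zero_add, Nat.sub_zero, hX] at h2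
    exact h2
  have hmem := Nat.sInf_mem hne
  let _ : Fintype (GSp G) := inferInstanceAs (Fintype (Fin n))
  have hcard : Fintype.card (GSp G) = n := Fintype.card_fin n
  exact biclique_of_emb G (hmem.2 (GSp G) hcard)

end Pool.Agent.Lib.MP_293cc0_an.UB
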