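import Pool.Agent.Lib.MP_293cc0_an.UB.Cnt

/-!
# MP_293cc0_an, upper bound, module PropB (200 lines)

Suppose `GoodB ω L` fails at `W`, `m = |W| ≥ 2 ^ 73 L`, with the families `A, B : Fin (4 m) → subsets of W` of size at most `m / 2 ^ 32`: the edges of `W` are exactly the pairs in some `A j × B j` (in one of the two orders).
Let `P` be the set of the coordinates `(x, y)`, `x < y`, `x, y ∈ W`: `|P| = m (m - 1) / 2`, and `E ⊆ P` the coordinates of the pairs covered by `A, B`: `ω e = 0 ↔ e ∈ E` for `e ∈ P`.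
For given `W, A, B` the number of such `ω` is at most `|Om n| (1 - 2⁻²⁰) ^ |P| ≤ |Om n| / 2 ^ (|P| / 2 ^ 20)` (`card_exact`, `one_sub_pow`). The number of the `(A, B)` is at most
`(2 ^ (34 (m / 2 ^ 32 + 1))) ^ (8 m) = 2 ^ (272 m (m / 2 ^ 32 + 1))` (`small_sets`, `c = 32`), of the `W` with `m` elements at most `n ^ m ≤ 2 ^ (L m)`. Exponent:
`L m + 272 m² / 2 ^ 32 + 272 m - (m (m - 1) / 2) / 2 ^ 20 + 1 ≤ L m + 273 m + 1 + m² / 2 ^ 23 - m² / 2 ^ 21 ≤ L m + 274 m - 3 m² / 2 ^ 23`, and `3 m² / 2 ^ 23 ≥ 3 · 2 ^ 50 L m`. So for every `m` the number is `≤ |Om n| / 2 ^ (2 L + 4)`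
(at most `n + 1 ≤ 2 ^ (L + 1)` values of `m`), together at most `1/4`.
-/

set_option autoImplicit false

namespace Pool.Agent.Lib.MP_293cc0_an.UB

open Finset

private def smallFam {n : ℕ} (W : Finset (Fin n)) : Finset (Finset (Fin n)) :=
  W.powerset.filter fun A => 2 ^ 32 * A.card ≤ W.card

private def prs {n : ℕ} (W : Finset (Fin n)) : Finset (Fin n × Fin n) :=
  (W ×ˢ W).filter fun e => e.1 < e.2

private def covd {n k : ℕ} (A B : Fin k → Finset (Fin n)) : Finset (Fin n × Fin n) :=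
  univ.filter fun e => ∃ j, (e.1 ∈ A j ∧ e.2 ∈ B j) ∨ (e.2 ∈ A j ∧ e.1 ∈ B j)

private theorem mem_covd {n k : ℕ} {A B : Fin k → Finset (Fin n)} {e : Fin n × Fin n} :
    e ∈ covd A B ↔ ∃ j, (e.1 ∈ A j ∧ e.2 ∈ B j) ∨ (e.2 ∈ A j ∧ e.1 ∈ B j) := by
  unfold covd
  rw [mem_filter]
  exact ⟨fun h => h.2, fun h => ⟨mem_univ _, h⟩⟩

open Classical in
private noncomputable def fib {n k : ℕ} (W : Finset (Fin n)) (A B : Fin k → Finset (Fin n)) :
    Finset (Om n) := univ.filter fun ω => ∀ e ∈ prs W, (ω e = 0 ↔ e ∈ covd A B)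

private theorem card_prs {n : ℕ} (W : Finset (Fin n)) : W.card * (W.card - 1) = 2 * (prs W).card := by
  have h1 : W.offDiag = prs W ∪ (prs W).image Prod.swap := by
    ext ⟨x, y⟩
    rw [mem_offDiag, mem_union, mem_image]
    constructor
    · rintro ⟨hx, hy, hne⟩
      rcases lt_or_gt_of_ne hne with h | h
      · left
        rw [prs, mem_filter, mem_product]
        exact ⟨⟨hx, hy⟩, h⟩
      · right
        refine ⟨(y, x), ?_, rfl⟩
        rw [prs, mem_filter, mem_product]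
        exact ⟨⟨hy, hx⟩, h⟩
    · rintro (h | ⟨⟨a, b⟩, h, he⟩)
      · rw [prs, mem_filter, mem_product] at h
        exact ⟨h.1.1, h.1.2, ne_of_lt h.2⟩
      · rw [prs, mem_filter, mem_product] at h
        obtain ⟨⟨ha, hb⟩, hab⟩ := h
        have e1 : b = x := congrArg Prod.fst he
        have e2 : a = y := congrArg Prod.snd he
        subst e1 e2
        exact ⟨hb, ha, (ne_of_lt hab).symm⟩
  have h2 : Disjoint (prs W) ((prs W).image Prod.swap) := by
    rw [disjoint_left]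
    rintro ⟨x, y⟩ h h'
    rw [mem_image] at h'
    obtain ⟨⟨a, b⟩, h', he⟩ := h'
    rw [prs, mem_filter] at h h'
    have e1 : b = x := congrArg Prod.fst he
    have e2 : a = y := congrArg Prod.snd he
    subst e1 e2
    exact lt_asymm h.2 h'.2
  have h3 : ((prs W).image Prod.swap).card = (prs W).card :=
    card_image_of_injective _ Prod.swap_injective
  have h4 := congrArg card h1
  rw [card_union_of_disjoint h2, h3, offDiag_card] at h4
  rw [Nat.mul_sub, mul_one]
  omega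

private theorem card_fib {n k : ℕ} (W : Finset (Fin n)) (A B : Fin k → Finset (Fin n)) :
    (fib W A B).card * 2 ^ ((prs W).card / 2 ^ 20) ≤ Fintype.card (Om n) := by
  have h1 := card_exact (prs W) (covd A B)
  have h2 := one_sub_pow (prs W).card
  have h3 : (fib W A B).card * (2 ^ 20) ^ (prs W).card ≤ (2 ^ 20 - 1) ^ (prs W).card * Fintype.card (Om n) := h1
  have h4 : 0 < ((2 : ℕ) ^ 20) ^ (prs W).card := by positivity
  refine Nat.le_of_mul_le_mul_left ?_ h4
  calc (2 ^ 20) ^ (prs W).card * ((fib W A B).card * 2 ^ ((prs W).card / 2 ^ 20))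
      = ((fib W A B).card * (2 ^ 20) ^ (prs W).card) * 2 ^ ((prs W).card / 2 ^ 20) := by ring
    _ ≤ ((2 ^ 20 - 1) ^ (prs W).card * Fintype.card (Om n)) * 2 ^ ((prs W).card / 2 ^ 20) :=
        Nat.mul_le_mul_right _ h3
    _ = ((2 ^ 20 - 1) ^ (prs W).card * 2 ^ ((prs W).card / 2 ^ 20)) * Fintype.card (Om n) := by ring
    _ ≤ (2 ^ 20) ^ (prs W).card * Fintype.card (Om n) := Nat.mul_le_mul_right _ h2

open Classical in
private noncomputable def badW {n : ℕ} (W : Finset (Fin n)) : Finset (Om n) :=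
  (Fintype.piFinset (fun _ : Fin (4 * W.card) => smallFam W) ×ˢ
    Fintype.piFinset (fun _ : Fin (4 * W.card) => smallFam W)).biUnion fun AB => fib W AB.1 AB.2

private theorem card_badW' {n : ℕ} (W : Finset (Fin n)) :
    (badW W).card * 2 ^ ((prs W).card / 2 ^ 20) ≤
      2 ^ (8 * W.card * (34 * (W.card / 2 ^ 32 + 1))) * Fintype.card (Om n) := by
  have h1 : (badW W).card ≤ ∑ AB ∈ Fintype.piFinset (fun _ : Fin (4 * W.card) => smallFam W) ×ˢ
      Fintype.piFinset (fun _ : Fin (4 * W.card) => smallFam W), (fib W AB.1 AB.2).card := card_biUnion_le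
  have h2 : (smallFam W).card ≤ 2 ^ (34 * (W.card / 2 ^ 32 + 1)) := small_sets W 32
  have h3 : (Fintype.piFinset (fun _ : Fin (4 * W.card) => smallFam W) ×ˢ
      Fintype.piFinset (fun _ : Fin (4 * W.card) => smallFam W)).card ≤
      2 ^ (8 * W.card * (34 * (W.card / 2 ^ 32 + 1))) := by
    rw [card_product, Fintype.card_piFinset, prod_const, card_univ, Fintype.card_fin, ← pow_add]
    have e1 : 4 * W.card + 4 * W.card = 8 * W.card := by ring
    rw [e1]
    calc (smallFam W).card ^ (8 * W.card) ≤ (2 ^ (34 * (W.card / 2 ^ 32 + 1))) ^ (8 * W.card) :=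
          Nat.pow_le_pow_left h2 _
      _ = 2 ^ (8 * W.card * (34 * (W.card / 2 ^ 32 + 1))) := by
          rw [← pow_mul, mul_comm (34 * (W.card / 2 ^ 32 + 1))]
  calc (badW W).card * 2 ^ ((prs W).card / 2 ^ 20)
      ≤ (∑ AB ∈ Fintype.piFinset (fun _ : Fin (4 * W.card) => smallFam W) ×ˢ
      Fintype.piFinset (fun _ : Fin (4 * W.card) => smallFam W), (fib W AB.1 AB.2).card) *
        2 ^ ((prs W).card / 2 ^ 20) := Nat.mul_le_mul_right _ h1
    _ = ∑ AB ∈ Fintype.piFinset (fun _ : Fin (4 * W.card) => smallFam W) ×ˢ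
      Fintype.piFinset (fun _ : Fin (4 * W.card) => smallFam W),
        (fib W AB.1 AB.2).card * 2 ^ ((prs W).card / 2 ^ 20) := sum_mul _ _ _
    _ ≤ ∑ _AB ∈ Fintype.piFinset (fun _ : Fin (4 * W.card) => smallFam W) ×ˢ
      Fintype.piFinset (fun _ : Fin (4 * W.card) => smallFam W), Fintype.card (Om n) :=
        sum_le_sum fun AB _ => card_fib W AB.1 AB.2
    _ = _ * Fintype.card (Om n) := by rw [sum_const, smul_eq_mul]
    _ ≤ _ := Nat.mul_le_mul_right _ h3

private theorem exponent {m L P : ℕ} (hL : 1 ≤ L) (hm : 2 ^ 73 * L ≤ m) (hP : m * (m - 1) = 2 * P) :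
    8 * m * (34 * (m / 2 ^ 32 + 1)) + ((L + 1) * m + 3) ≤ P / 2 ^ 20 := by
  rw [Nat.le_div_iff_mul_le (by norm_num)]
  have h1 : 2 ^ 32 * (m / 2 ^ 32) ≤ m := Nat.mul_div_le m (2 ^ 32)
  generalize m / 2 ^ 32 = q at *
  obtain ⟨k, rfl⟩ : ∃ k, m = k + 1 := ⟨m - 1, by omega⟩
  rw [Nat.add_sub_cancel] at hP
  have h2 : 2 ^ 73 ≤ k + 1 := le_trans (Nat.le_mul_of_pos_right (2 ^ 73) (by omega)) hm
  have h3 : (k + 1) * (2 ^ 32 * q) ≤ (k + 1) * (k + 1) := Nat.mul_le_mul_left _ h1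
  have h4 : (k + 1) * (2 ^ 73 * L) ≤ (k + 1) * (k + 1) := Nat.mul_le_mul_left _ hm
  have h5 : (k + 1) * 2 ^ 73 ≤ (k + 1) * (k + 1) := Nat.mul_le_mul_left _ h2
  have h6 : (k + 1) * (k + 1) = (k + 1) * k + (k + 1) := by ring
  have h7 : (8 * (k + 1) * (34 * (q + 1)) + ((L + 1) * (k + 1) + 3)) * 2 ^ 20 * 2 =
      272 * 2 ^ 21 * ((k + 1) * q) + 2 ^ 21 * ((k + 1) * L) + 273 * 2 ^ 21 * (k + 1) + 3 * 2 ^ 21 := by ring
  have h8 : (k + 1) * (2 ^ 32 * q) = 2 ^ 32 * ((k + 1) * q) := by ring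
  have h9 : (k + 1) * (2 ^ 73 * L) = 2 ^ 73 * ((k + 1) * L) := by ring
  have h10 : 2 * P = (k + 1) * k := hP.symm
  rw [h8] at h3
  rw [h9] at h4
  rw [h6] at h3 h4 h5
  have h11 : (8 * (k + 1) * (34 * (q + 1)) + ((L + 1) * (k + 1) + 3)) * 2 ^ 20 * 2 ≤ P * 2 := by
    rw [h7, mul_comm P 2, h10]
    clear h7 h10 hP h1 hm h6 h8 h9
    generalize (k + 1) * q = u at *
    generalize (k + 1) * L = v at *
    generalize (k + 1) * k = w at *
    generalize k + 1 = K at *
    norm_num at *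
    linarith
  exact Nat.le_of_mul_le_mul_right h11 (by norm_num)

private theorem card_badW {n L : ℕ} (hL : 1 ≤ L) (W : Finset (Fin n)) (hW : 2 ^ 73 * L ≤ W.card) :
    (badW W).card * 2 ^ ((L + 1) * W.card + 3) ≤ Fintype.card (Om n) := by
  have h1 := card_badW' W
  have h2 := exponent hL hW (card_prs W)
  have h3 : 0 < (2 : ℕ) ^ (8 * W.card * (34 * (W.card / 2 ^ 32 + 1))) := by positivity
  refine Nat.le_of_mul_le_mul_left ?_ h3
  refine le_trans ?_ h1
  calc 2 ^ (8 * W.card * (34 * (W.card / 2 ^ 32 + 1))) * ((badW W).card * 2 ^ ((L + 1) * W.card + 3))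
      = (badW W).card * 2 ^ (8 * W.card * (34 * (W.card / 2 ^ 32 + 1)) + ((L + 1) * W.card + 3)) := by
        rw [pow_add]; ring
    _ ≤ (badW W).card * 2 ^ ((prs W).card / 2 ^ 20) :=
        Nat.mul_le_mul_left _ (Nat.pow_le_pow_right (by norm_num) h2)

private theorem mem_badW {n L : ℕ} {ω : Om n} (h : ¬ GoodB ω L) :
    ∃ W : Finset (Fin n), 2 ^ 73 * L ≤ W.card ∧ ω ∈ badW W := by
  unfold GoodB at h
  push Not at h
  obtain ⟨W, hW, A, B, hsz, hadj, hcov⟩ := h
  refine ⟨W, hW, ?_⟩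
  rw [badW, mem_biUnion]
  refine ⟨(A, B), ?_, ?_⟩
  · rw [mem_product, Fintype.mem_piFinset, Fintype.mem_piFinset]
    constructor
    · intro j
      rw [smallFam, mem_filter, mem_powerset]
      exact ⟨(hsz j).1, (hsz j).2.2.1⟩
    · intro j
      rw [smallFam, mem_filter, mem_powerset]
      exact ⟨(hsz j).2.1, (hsz j).2.2.2⟩
  · rw [fib, mem_filter]
    refine ⟨mem_univ _, ?_⟩
    rintro ⟨x, y⟩ he
    rw [prs, mem_filter, mem_product] at he
    obtain ⟨⟨hx, hy⟩, hxy⟩ := he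
    have hxy' : x < y := hxy
    have hval : ω (min x y, max x y) = ω (x, y) := by rw [min_eq_left hxy'.le, max_eq_right hxy'.le]
    rw [mem_covd]
    constructor
    · intro h0
      have h1 : adj ω x y := ⟨ne_of_lt hxy', by rw [hval]; exact h0⟩
      obtain ⟨j, hj⟩ := hcov x hx y hy h1
      refine ⟨j, ?_⟩
      by_cases h2 : x ∈ A j ∧ y ∈ B j
      · exact Or.inl h2
      · exact Or.inr (hj (fun h3 h4 => h2 ⟨h3, h4⟩))
    · rintro ⟨j, h2 | h2⟩
      · have h3 := (hadj j x h2.1 y h2.2).2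
        rw [hval] at h3
        exact h3
      · have h3 := (adj_symm (hadj j y h2.1 x h2.2)).2
        rw [hval] at h3
        exact h3

open Classical in
theorem countB {n L : ℕ} (hn : n ≤ 2 ^ L) (hL : 1 ≤ L) :
    4 * (univ.filter fun ω : Om n => ¬ GoodB ω L).card ≤ Fintype.card (Om n) := by
  have h1 : (univ.filter fun ω : Om n => ¬ GoodB ω L) ⊆
      (univ.filter fun W : Finset (Fin n) => 2 ^ 73 * L ≤ W.card).biUnion badW := by
    intro ω hω
    rw [mem_filter] at hω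
    obtain ⟨W, hW, hmem⟩ := mem_badW hω.2
    rw [mem_biUnion]
    exact ⟨W, by rw [mem_filter]; exact ⟨mem_univ _, hW⟩, hmem⟩
  have h2 := (card_le_card h1).trans card_biUnion_le
  have h3 : ((univ.filter fun ω : Om n => ¬ GoodB ω L).card : ℝ) ≤
      ∑ W ∈ univ.filter (fun W : Finset (Fin n) => 2 ^ 73 * L ≤ W.card), ((badW W).card : ℝ) := by
    exact_mod_cast h2
  set q : ℝ := ((2 : ℝ) ^ (L + 1))⁻¹ with hq
  have hq0 : 0 ≤ q := by positivity
  have h4 : ∀ W ∈ univ.filter (fun W : Finset (Fin n) => 2 ^ 73 * L ≤ W.card),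
      ((badW W).card : ℝ) ≤ Fintype.card (Om n) / 8 * q ^ W.card := by
    intro W hW
    rw [mem_filter] at hW
    have h5 := card_badW hL W hW.2
    have h6 : ((badW W).card : ℝ) * (((2 : ℝ) ^ (L + 1)) ^ W.card * 8) ≤ Fintype.card (Om n) := by
      have h7 : ((badW W).card : ℝ) * 2 ^ ((L + 1) * W.card + 3) ≤ Fintype.card (Om n) := by
        exact_mod_cast h5
      rw [pow_add, pow_mul] at h7
      norm_num at h7 ⊢
      exact h7
    rw [hq, inv_pow]
    have h8 : (0 : ℝ) < ((2 : ℝ) ^ (L + 1)) ^ W.card := by positivity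
    rw [← div_eq_mul_inv, div_div, le_div_iff₀ (by positivity)]
    linarith
  have h5 : ∑ W ∈ univ.filter (fun W : Finset (Fin n) => 2 ^ 73 * L ≤ W.card), ((badW W).card : ℝ) ≤
      Fintype.card (Om n) / 8 * ∑ W : Finset (Fin n), q ^ W.card := by
    rw [mul_sum]
    refine (sum_le_sum h4).trans ?_
    refine sum_le_sum_of_subset_of_nonneg (filter_subset _ _) fun W _ _ => by positivity
  have h6 : ∑ W : Finset (Fin n), q ^ W.card = (q + 1) ^ n := by
    have := Fintype.sum_pow_mul_eq_add_pow (Fin n) q 1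
    simp only [one_pow, mul_one, Fintype.card_fin] at this
    exact this
  have h7 : (q + 1) ^ n ≤ 2 := by
    have h8 : q + 1 ≤ Real.exp q := Real.add_one_le_exp q
    have h9 : (q + 1) ^ n ≤ Real.exp (n * q) := by
      rw [Real.exp_nat_mul]
      exact pow_le_pow_left₀ (by linarith) h8 n
    have h10 : (n : ℝ) * q ≤ 1 / 2 := by
      have h11 : (n : ℝ) ≤ 2 ^ L := by exact_mod_cast hn
      rw [hq, ← div_eq_mul_inv, div_le_div_iff₀ (by positivity) (by norm_num), pow_succ]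
      linarith
    have h11 : Real.exp (1 / 2) ≤ 2 := by
      have h12 : Real.exp (1 / 2) * Real.exp (1 / 2) = Real.exp 1 := by
        rw [← Real.exp_add]
        norm_num
      have h13 := Real.exp_one_lt_d9
      have h14 := Real.exp_pos (1 / 2)
      nlinarith
    exact h9.trans ((Real.exp_le_exp.2 h10).trans h11)
  have h8 : (4 : ℝ) * ((univ.filter fun ω : Om n => ¬ GoodB ω L).card : ℝ) ≤ Fintype.card (Om n) := by
    have h9 : (0 : ℝ) ≤ Fintype.card (Om n) := by positivity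
    rw [h6] at h5
    have h10 : (Fintype.card (Om n) : ℝ) / 8 * (q + 1) ^ n ≤ Fintype.card (Om n) / 8 * 2 :=
      mul_le_mul_of_nonneg_left h7 (by positivity)
    have h11 := h3.trans (h5.trans h10)
    calc (4 : ℝ) * ((univ.filter fun ω : Om n => ¬ GoodB ω L).card : ℝ)
        ≤ 4 * (Fintype.card (Om n) / 8 * 2) := mul_le_mul_of_nonneg_left h11 (by norm_num)
      _ = Fintype.card (Om n) := by ring
  exact_mod_cast h8

end Pool.Agent.Lib.MP_293cc0_an.UB
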