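import Pool.Agent.Lib.MP_293cc0_an.UB.Defs

/-!
# MP_293cc0_an, upper bound, module Recur (150 lines): the deterministic part

Generalise: `F` a finite set of indices with bicliques `A i, B i` (`a ∈ A i`, `b ∈ B i` adjacent), such that every edge inside `W` is covered by some `i ∈ F`. Claim: `|W| ≤ |F| + 2 ^ 75 L + 2 ^ 38 L · Nat.log 4 |W|`. Strong induction on `m = |W|`.
If `m < 4 · 2 ^ 73 L`: trivial. Otherwise take `T` from `GoodA`. `F₁ = {i ∈ F | |A i \ T| ≤ 1 ∨ |B i \ T| ≤ 1}`; for `i ∈ F₁` let `c i = A i \ T` if `|A i \ T| ≤ 1`, otherwise `c i = B i \ T`: at most one point.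
`W' = (W \ T) \ ⋃_{i ∈ F₁} c i`, `|W'| ≥ m - |T| - |F₁|`. Every edge `x y` inside `W'` is covered by some `i ∈ F₂ = F \ F₁`: if `i ∈ F₁`, `x ∈ A i`, `y ∈ B i`, then `x, y ∉ T`; so `x ∈ c i` or `y ∈ c i`, contradiction.
* If `|F₂| ≥ m`: done.
* If `|F₂| < m` and `4 |W'| ≥ m`: `GoodB` for `W'` (`|W'| ≥ 2 ^ 73 L`) with the families `A i ∩ W'`, `B i ∩ W'`, `i ∈ F₂`, filled up with empty sets to `4 |W'| ≥ m > |F₂|` indices. For `i ∈ F₂` there are `x ≠ x'` in `A i \ T`, `B i ∩ W' ⊆` common neighbours of `x, x'` in `W`, so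
`2 ^ 34 |B i ∩ W'| ≤ m ≤ 4 |W'|`, so `2 ^ 32 |B i ∩ W'| ≤ |W'|`; the same for `A i ∩ W'`. The edge which is not covered contradicts the covering by `F₂`.
* If `4 |W'| < m`: induction: `|W'| ≤ |F₂| + 2 ^ 75 L + 2 ^ 38 L · Nat.log 4 |W'|`, and `Nat.log 4 |W'| + 1 ≤ Nat.log 4 m` (also for `W' = ∅` because `m ≥ 4`), `|T| ≤ 2 ^ 38 L`.
-/

set_option autoImplicit false

namespace Pool.Agent.Lib.MP_293cc0_an.UB

open Finset

open Classical in
/-- a biclique with two points of one side outside `T` has a small other side in `W` -/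
private theorem recur_small {n : ℕ} {ω : Om n} {W W' T P Q : Finset (Fin n)}
    (hT : ∀ x, x ∉ T → ∀ y, y ∉ T → x ≠ y →
      2 ^ 34 * (W.filter fun w => adj ω x w ∧ adj ω y w).card ≤ W.card)
    (hW : W' ⊆ W) (h4 : W.card ≤ 4 * W'.card) (hPQ : ∀ a ∈ P, ∀ b ∈ Q, adj ω a b)
    (hP : 1 < (P \ T).card) : 2 ^ 32 * (Q ∩ W').card ≤ W'.card := by
  obtain ⟨x, hx, x', hx', hne⟩ := Finset.one_lt_card.1 hP
  rw [mem_sdiff] at hx hx'
  have h1 := hT x hx.2 x' hx'.2 hne
  have h2 : (Q ∩ W').card ≤ (W.filter fun w => adj ω x w ∧ adj ω x' w).card := by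
    refine card_le_card fun w hw => ?_
    rw [mem_inter] at hw
    rw [mem_filter]
    exact ⟨hW hw.2, hPQ x hx.1 w hw.1, hPQ x' hx'.1 w hw.1⟩
  have h3 : 2 ^ 34 * (Q ∩ W').card ≤ W.card := (Nat.mul_le_mul_left _ h2).trans h1
  omega

private theorem recur_main {n L k : ℕ} (hL : 1 ≤ L) {ω : Om n} (hA : GoodA ω L)
    (hB : GoodB ω L) (A B : Fin k → Finset (Fin n)) (h1 : ∀ i, ∀ a ∈ A i, ∀ b ∈ B i, adj ω a b) :
    ∀ (m : ℕ) (W : Finset (Fin n)) (F : Finset (Fin k)), W.card = m →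
      (∀ x ∈ W, ∀ y ∈ W, adj ω x y → ∃ i ∈ F, (x ∈ A i ∧ y ∈ B i) ∨ (y ∈ A i ∧ x ∈ B i)) →
      m ≤ F.card + 2 ^ 75 * L + 2 ^ 38 * L * Nat.log 4 m := by
  classical
  intro m
  induction m using Nat.strong_induction_on with
  | _ m ih =>
  intro W F hm h2
  rcases lt_or_ge m (2 ^ 75 * L) with hlt | hge
  · omega
  obtain ⟨T, hT, hT'⟩ := hA W (by rw [hm]; omega)
  set F₁ : Finset (Fin k) := F.filter fun i => (A i \ T).card ≤ 1 ∨ (B i \ T).card ≤ 1 with hF₁
  set F₂ : Finset (Fin k) := F.filter fun i => ¬ ((A i \ T).card ≤ 1 ∨ (B i \ T).card ≤ 1)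
    with hF₂
  have hFF : F₁.card + F₂.card = F.card := card_filter_add_card_filter_not _
  let c : Fin k → Finset (Fin n) := fun i => if (A i \ T).card ≤ 1 then A i \ T else B i \ T
  have hc : ∀ i ∈ F₁, (c i).card ≤ 1 := by
    intro i hi
    rw [hF₁, mem_filter] at hi
    by_cases h : (A i \ T).card ≤ 1
    · simp only [c, if_pos h]
      exact h
    · simp only [c, if_neg h]
      exact hi.2.resolve_left h
  set W' : Finset (Fin n) := (W \ T) \ F₁.biUnion c with hW'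
  have hW'W : W' ⊆ W := sdiff_subset.trans sdiff_subset
  have hcU : (F₁.biUnion c).card ≤ F₁.card := by
    refine card_biUnion_le.trans ?_
    refine (sum_le_card_nsmul _ _ 1 hc).trans ?_
    rw [smul_eq_mul, mul_one]
  have hcard : m ≤ W'.card + T.card + F₁.card := by
    have e1 : (W \ T).card ≤ W'.card + (F₁.biUnion c).card := by
      have := le_card_sdiff (F₁.biUnion c) (W \ T)
      rw [← hW'] at this
      omega
    have e2 : W.card ≤ (W \ T).card + T.card := by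
      have := le_card_sdiff T W
      omega
    omega
  have hcov : ∀ x ∈ W', ∀ y ∈ W', adj ω x y →
      ∃ i ∈ F₂, (x ∈ A i ∧ y ∈ B i) ∨ (y ∈ A i ∧ x ∈ B i) := by
    intro x hx y hy hxy
    obtain ⟨i, hi, hi'⟩ := h2 x (hW'W hx) y (hW'W hy) hxy
    by_cases hiF : (A i \ T).card ≤ 1 ∨ (B i \ T).card ≤ 1
    · exfalso
      have hiF₁ : i ∈ F₁ := mem_filter.2 ⟨hi, hiF⟩
      rw [hW', mem_sdiff, mem_sdiff] at hx hy
      have hx' : x ∉ c i := fun h => hx.2 (mem_biUnion.2 ⟨i, hiF₁, h⟩)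
      have hy' : y ∉ c i := fun h => hy.2 (mem_biUnion.2 ⟨i, hiF₁, h⟩)
      by_cases h : (A i \ T).card ≤ 1
      · simp only [c, if_pos h] at hx' hy'
        rcases hi' with h' | h'
        · exact hx' (mem_sdiff.2 ⟨h'.1, hx.1.2⟩)
        · exact hy' (mem_sdiff.2 ⟨h'.1, hy.1.2⟩)
      · simp only [c, if_neg h] at hx' hy'
        rcases hi' with h' | h'
        · exact hy' (mem_sdiff.2 ⟨h'.2, hy.1.2⟩)
        · exact hx' (mem_sdiff.2 ⟨h'.2, hx.1.2⟩)
    · exact ⟨i, mem_filter.2 ⟨hi, hiF⟩, hi'⟩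
  rcases le_or_gt m F₂.card with hm2 | hm2
  · omega
  rcases le_or_gt m (4 * W'.card) with hm4 | hm4
  · exfalso
    have hWc : 2 ^ 73 * L ≤ W'.card := by omega
    let e := F₂.equivFin
    let A' : Fin (4 * W'.card) → Finset (Fin n) := fun j =>
      if h : j.val < F₂.card then A (e.symm ⟨j.val, h⟩).val ∩ W' else ∅
    let B' : Fin (4 * W'.card) → Finset (Fin n) := fun j =>
      if h : j.val < F₂.card then B (e.symm ⟨j.val, h⟩).val ∩ W' else ∅
    have hi2 : ∀ i : F₂, 1 < (A i.val \ T).card ∧ 1 < (B i.val \ T).card := by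
      intro i
      have := (mem_filter.1 i.2).2
      omega
    obtain ⟨x, hx, y, hy, hxy, hno⟩ := hB W' hWc A' B' (by
      intro j
      by_cases h : j.val < F₂.card
      · simp only [A', B', dif_pos h]
        refine ⟨inter_subset_right, inter_subset_right, ?_, ?_⟩
        · exact recur_small hT' hW'W (by omega)
            (fun a ha b hb => adj_symm (h1 _ b hb a ha)) (hi2 _).2
        · exact recur_small hT' hW'W (by omega) (h1 _) (hi2 _).1
      · simp only [A', B', dif_neg h]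
        simp) (by
      intro j a ha b hb
      by_cases h : j.val < F₂.card
      · simp only [A', B', dif_pos h, mem_inter] at ha hb
        exact h1 _ a ha.1 b hb.1
      · simp only [A', dif_neg h] at ha
        exact absurd ha (notMem_empty a))
    obtain ⟨i, hi, hi'⟩ := hcov x hx y hy hxy
    have hlt : (e ⟨i, hi⟩).val < 4 * W'.card := lt_of_lt_of_le (e ⟨i, hi⟩).2 (by omega)
    have hno' := hno ⟨(e ⟨i, hi⟩).val, hlt⟩
    have hb : (e ⟨i, hi⟩).val < F₂.card := (e ⟨i, hi⟩).2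
    have heq : e.symm ⟨(e ⟨i, hi⟩).val, hb⟩ = ⟨i, hi⟩ := by
      rw [Fin.eta]
      exact e.symm_apply_apply _
    simp only [A', B', dif_pos hb, heq, mem_inter] at hno'
    rcases hi' with h' | h'
    · exact hno'.1 ⟨⟨h'.1, hx⟩, h'.2, hy⟩
    · exact hno'.2 ⟨⟨h'.1, hy⟩, h'.2, hx⟩
  · have h5 := ih W'.card (by omega) W' F₂ rfl hcov
    have h6 : Nat.log 4 W'.card + 1 ≤ Nat.log 4 m := by
      rcases Nat.eq_zero_or_pos W'.card with h0 | h0
      · rw [h0, Nat.log_zero_right, zero_add]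
        exact Nat.log_pos (by norm_num) (by omega)
      · rw [← Nat.log_mul_base (by norm_num) h0.ne']
        exact Nat.log_mono_right (by omega)
    have h7 : 2 ^ 38 * L * (Nat.log 4 W'.card + 1) ≤ 2 ^ 38 * L * Nat.log 4 m :=
      Nat.mul_le_mul_left _ h6
    rw [mul_add, mul_one] at h7
    omega

theorem recur {n L k : ℕ} (hL : 1 ≤ L) {ω : Om n} (hA : GoodA ω L) (hB : GoodB ω L)
    (A B : Fin k → Finset (Fin n)) (h1 : ∀ i, ∀ a ∈ A i, ∀ b ∈ B i, adj ω a b)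
    (h2 : ∀ x y, adj ω x y → ∃ i, (x ∈ A i ∧ y ∈ B i) ∨ (y ∈ A i ∧ x ∈ B i)) :
    n ≤ k + 2 ^ 75 * L + 2 ^ 38 * L * Nat.log 4 n := by
  have h := recur_main hL hA hB A B h1 n univ univ (by simp) (fun x _ y _ hxy => by
    obtain ⟨i, hi⟩ := h2 x y hxy
    exact ⟨i, mem_univ i, hi⟩)
  rwa [card_univ, Fintype.card_fin] at h

end Pool.Agent.Lib.MP_293cc0_an.UB
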