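import Pool.Agent.Lib.MP_293cc0_an.UB.PropA
import Pool.Agent.Lib.MP_293cc0_an.UB.PropB
import Pool.Agent.Lib.MP_293cc0_an.UB.Recur
import Pool.Agent.Lib.MP_293cc0_an.UB.Metric

/-!
# MP_293cc0_an, upper bound, module Main (80 lines)

`L = Nat.log 2 n + 1`, `n < 2 ^ L`. By `countA` and `countB` at most half of the `ω` are bad (and `Om n` is nonempty), so there is `ω` with `GoodA` and `GoodB`. `G = adj ω` as a `SimpleGraph`. `biclique_dmin` and `recur`:
`n ≤ dmin n + 2 ^ 75 L + 2 ^ 38 L · Nat.log 4 n ≤ dmin n + 2 ^ 76 L²` (`Nat.log 4 n ≤ L`, `1 ≤ L`), and `L ≤ 3 log n` for `n ≥ 2` (`Nat.log 2 n ≤ log n / log 2`, `log 2 > 0.69`, `1 ≤ log n / log 2`). `C = 9 · 2 ^ 76`.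
-/

set_option autoImplicit false

namespace Pool.Agent.Lib.MP_293cc0_an.UB

open Finset

open Classical in
private theorem exists_good {n L : ℕ} (hn : n ≤ 2 ^ L) (hL : 1 ≤ L) : ∃ ω : Om n, GoodA ω L ∧ GoodB ω L := by
  by_contra hno
  push Not at hno
  have h1 := countA hn hL
  have h2 := countB hn hL
  have h3 : (univ : Finset (Om n)) ⊆ (univ.filter fun ω : Om n => ¬ GoodA ω L) ∪
      (univ.filter fun ω : Om n => ¬ GoodB ω L) := by
    intro ω _
    rw [mem_union, mem_filter, mem_filter]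
    by_cases hA : GoodA ω L
    · exact Or.inr ⟨mem_univ _, hno ω hA⟩
    · exact Or.inl ⟨mem_univ _, hA⟩
  have h4 := (card_le_card h3).trans (card_union_le _ _)
  rw [card_univ] at h4
  have h5 : 0 < Fintype.card (Om n) := Fintype.card_pos_iff.2 ⟨fun _ => 0⟩
  omega

private theorem log_bound (n : ℕ) (hn : 2 ≤ n) : ((Nat.log 2 n + 1 : ℕ) : ℝ) ≤ 3 * Real.log n := by
  have h1 : ((Nat.log 2 n : ℕ) : ℝ) ≤ Real.logb 2 n := by
    have := Real.natLog_le_logb n 2
    exact_mod_cast this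
  have h2 : (0.69 : ℝ) < Real.log 2 := by
    have := Real.log_two_gt_d9
    linarith
  have hn' : (2 : ℝ) ≤ n := by exact_mod_cast hn
  have h3 : Real.log 2 ≤ Real.log n := Real.log_le_log (by norm_num) hn'
  rw [Real.logb, le_div_iff₀ (by linarith)] at h1
  push_cast
  have h4 : (0 : ℝ) ≤ (Nat.log 2 n : ℝ) := by positivity
  nlinarith

/-- **The upper bound.** -/
theorem upper (n : ℕ) (hn : 2 ≤ n) : (n : ℝ) - dmin n ≤ 9 * 2 ^ 76 * (Real.log n) ^ 2 := by
  have hL1 : 1 ≤ Nat.log 2 n + 1 := by omega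
  have hnL : n ≤ 2 ^ (Nat.log 2 n + 1) := (Nat.lt_pow_succ_log_self (by norm_num) n).le
  have hlog := log_bound n hn
  have h4 : Nat.log 4 n ≤ Nat.log 2 n + 1 := by
    have := Nat.log_anti_left (n := n) (b := 4) (c := 2) (by norm_num) (by norm_num)
    omega
  obtain ⟨ω, hA, hB⟩ := exists_good hnL hL1
  let G : SimpleGraph (Fin n) :=
    { Adj := adj ω
      symm := ⟨fun x y h => adj_symm h⟩
      loopless := ⟨fun x h => h.1 rfl⟩ }
  obtain ⟨A, B, hAB, hcov⟩ := biclique_dmin (by omega : 1 ≤ n) G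
  have h := recur hL1 hA hB A B hAB hcov
  generalize Nat.log 2 n + 1 = L at *
  generalize Nat.log 4 n = K at *
  generalize dmin n = d at *
  have h5 : (n : ℝ) ≤ d + 2 ^ 75 * L + 2 ^ 38 * L * K := by exact_mod_cast h
  have h6 : (K : ℝ) ≤ L := by exact_mod_cast h4
  have h7 : (1 : ℝ) ≤ L := by exact_mod_cast hL1
  have h8 : (L : ℝ) * K ≤ L * L := mul_le_mul_of_nonneg_left h6 (by linarith)
  have h9 : (L : ℝ) ≤ L * L := by nlinarith
  have h10 : (L : ℝ) * L ≤ (3 * Real.log n) * (3 * Real.log n) :=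
    mul_le_mul hlog hlog (by linarith) (by linarith)
  have h11 : 9 * 2 ^ 76 * (Real.log n) ^ 2 = 2 ^ 76 * ((3 * Real.log n) * (3 * Real.log n)) := by ring
  rw [h11]
  have h12 : (2 : ℝ) ^ 75 * L + 2 ^ 38 * L * K ≤ 2 ^ 76 * (L * L) := by
    have e1 : (2 : ℝ) ^ 38 * L * K = 2 ^ 38 * (L * K) := by ring
    rw [e1]
    have e2 : (2 : ℝ) ^ 38 * (L * K) ≤ 2 ^ 75 * (L * L) := by
      refine mul_le_mul (by norm_num) h8 ?_ (by norm_num)
      exact mul_nonneg (by linarith) (by positivity)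
    have e3 : (2 : ℝ) ^ 75 * L ≤ 2 ^ 75 * (L * L) := mul_le_mul_of_nonneg_left h9 (by norm_num)
    linarith
  have h13 : (2 : ℝ) ^ 76 * (L * L) ≤ 2 ^ 76 * ((3 * Real.log n) * (3 * Real.log n)) :=
    mul_le_mul_of_nonneg_left h10 (by norm_num)
  linarith

end Pool.Agent.Lib.MP_293cc0_an.UB
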