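import Pool.Agent.Lib.MP_293cc0_an.UB.Defs

/-!
# MP_293cc0_an, upper bound, module Cnt (150 lines): counting lemmas

`card_zero`, `card_exact`: the sets are `Fintype.piFinset` (or `Fintype.piFinset`-like products): the fibre over `e` is `{0}` for `e ∈ E`, `{0}ᶜ` (with `2 ^ 20 - 1` elements) for `e ∈ P \ E`,
everything otherwise. `Fintype.card_piFinset`. For `card_exact` use `1 ≤ 2 ^ 20 - 1`.

`small_sets`: in `ℝ`: `∑_{A ⊆ W} q⁻¹ ^ |A| = (1 + q⁻¹) ^ m` (`Finset.sum_pow_mul_eq_add_pow`), `(1 + q⁻¹) ^ q ≤ exp 1 < 4`, `m ≤ q (m / q + 1)`, so the sum is `≤ 4 ^ (m / q + 1)`;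
every `A` of the family contributes at least `q⁻¹ ^ (m / q)`. So the number is at most `q ^ (m / q) 4 ^ (m / q + 1) ≤ 2 ^ ((c + 2) (m / q + 1))`, `q = 2 ^ c`.

`choose_bound`: the same: the subsets with exactly `b` elements, `m ≤ q b`: `choose m b ≤ q ^ b · 4 ^ (m / q + 1) ≤ 2 ^ (c b + 2 b + 2)`.

`one_sub_pow`: `(1 - 2⁻²⁰) ^ (2 ^ 20) ≤ exp (-1) < 1/2`: so `(2 ^ 20 - 1) ^ P · 2 ^ (P / 2 ^ 20) ≤ (2 ^ 20) ^ P`
(for `P = 2 ^ 20 k + s`: `k` blocks; from `Real.one_sub_le_exp_neg` or `Real.add_one_le_exp`).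
-/

set_option autoImplicit false

namespace Pool.Agent.Lib.MP_293cc0_an.UB

open Finset

private theorem card_out {ι : Type} [Fintype ι] [DecidableEq ι] (E : Finset ι) :
    (univ.filter fun e => e ∉ E).card + E.card = Fintype.card ι := by
  have h1 : (univ.filter fun e => e ∉ E) = Eᶜ := by
    ext e
    simp
  rw [h1, Finset.card_compl]
  have := Finset.card_le_univ E
  omega

open Classical in
private theorem card_zero_gen {ι : Type} [Fintype ι] [DecidableEq ι] (q : ℕ) [NeZero q]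
    (E : Finset ι) :
    (univ.filter fun ω : ι → Fin q => ∀ e ∈ E, ω e = 0).card * q ^ E.card =
      Fintype.card (ι → Fin q) := by
  have h : (univ.filter fun ω : ι → Fin q => ∀ e ∈ E, ω e = 0) =
      Fintype.piFinset (fun e => if e ∈ E then ({0} : Finset (Fin q)) else univ) := by
    ext ω
    rw [Finset.mem_filter, Fintype.mem_piFinset]
    constructor
    · rintro ⟨-, h⟩ e
      split_ifs with he
      · exact Finset.mem_singleton.2 (h e he)
      · exact Finset.mem_univ _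
    · intro h
      refine ⟨Finset.mem_univ _, fun e he => ?_⟩
      have h1 := h e
      rw [if_pos he] at h1
      exact Finset.mem_singleton.1 h1
  rw [h, Fintype.card_piFinset]
  have h2 : ∀ e, (if e ∈ E then ({0} : Finset (Fin q)) else univ).card =
      if e ∈ E then 1 else q := by
    intro e
    split_ifs
    · exact Finset.card_singleton _
    · rw [Finset.card_univ, Fintype.card_fin]
  rw [Finset.prod_congr rfl (fun e _ => h2 e), Finset.prod_ite, Finset.prod_const_one, one_mul,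
    Finset.prod_const, ← pow_add, Fintype.card_fun, Fintype.card_fin]
  congr 1
  exact card_out E

open Classical in
private theorem card_exact_gen {ι : Type} [Fintype ι] [DecidableEq ι] (q : ℕ) [NeZero q]
    (hq : 1 ≤ q - 1) (P E : Finset ι) :
    (univ.filter fun ω : ι → Fin q => ∀ e ∈ P, (ω e = 0 ↔ e ∈ E)).card * q ^ P.card ≤
      (q - 1) ^ P.card * Fintype.card (ι → Fin q) := by
  have h : (univ.filter fun ω : ι → Fin q => ∀ e ∈ P, (ω e = 0 ↔ e ∈ E)) =
      Fintype.piFinset (fun e => if e ∈ P then (if e ∈ E then ({0} : Finset (Fin q)) else {0}ᶜ)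
        else univ) := by
    ext ω
    rw [Finset.mem_filter, Fintype.mem_piFinset]
    constructor
    · rintro ⟨-, h⟩ e
      split_ifs with he he'
      · exact Finset.mem_singleton.2 ((h e he).2 he')
      · rw [Finset.mem_compl, Finset.mem_singleton]
        exact fun h1 => he' ((h e he).1 h1)
      · exact Finset.mem_univ _
    · intro h
      refine ⟨Finset.mem_univ _, fun e he => ?_⟩
      have h1 := h e
      rw [if_pos he] at h1
      by_cases he' : e ∈ E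
      · rw [if_pos he'] at h1
        exact ⟨fun _ => he', fun _ => Finset.mem_singleton.1 h1⟩
      · rw [if_neg he', Finset.mem_compl, Finset.mem_singleton] at h1
        exact ⟨fun h2 => absurd h2 h1, fun h2 => absurd h2 he'⟩
  rw [h, Fintype.card_piFinset]
  have h2 : ∏ e, (if e ∈ P then (if e ∈ E then ({0} : Finset (Fin q)) else {0}ᶜ)
        else univ).card ≤ ∏ e, if e ∈ P then q - 1 else q := by
    refine Finset.prod_le_prod (fun _ _ => Nat.zero_le _) fun e _ => ?_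
    split_ifs
    · rw [Finset.card_singleton]
      exact hq
    · rw [Finset.card_compl, Finset.card_singleton, Fintype.card_fin]
    · rw [Finset.card_univ, Fintype.card_fin]
  refine (Nat.mul_le_mul_right _ h2).trans (le_of_eq ?_)
  rw [Finset.prod_ite, Finset.prod_const, Finset.prod_const, mul_assoc, ← pow_add,
    Fintype.card_fun, Fintype.card_fin]
  have h3 : (univ.filter fun e => e ∈ P) = P := by
    ext e
    simp
  rw [h3, card_out P]

open Classical in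
theorem card_zero {n : ℕ} (E : Finset (Fin n × Fin n)) :
    (univ.filter fun ω : Om n => ∀ e ∈ E, ω e = 0).card * (2 ^ 20) ^ E.card =
      Fintype.card (Om n) :=
  card_zero_gen (2 ^ 20) E

open Classical in
theorem card_exact {n : ℕ} (P E : Finset (Fin n × Fin n)) :
    (univ.filter fun ω : Om n => ∀ e ∈ P, (ω e = 0 ↔ e ∈ E)).card * (2 ^ 20) ^ P.card ≤
      (2 ^ 20 - 1) ^ P.card * Fintype.card (Om n) :=
  card_exact_gen (2 ^ 20) (by norm_num) P E

private theorem pow_bound (c m : ℕ) :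
    (1 + ((2 : ℝ) ^ c)⁻¹) ^ m ≤ 4 ^ (m / 2 ^ c + 1) := by
  have hq : (0 : ℝ) < 2 ^ c := by positivity
  have h1 : (1 + ((2 : ℝ) ^ c)⁻¹) ^ (2 ^ c) ≤ 4 := by
    have h2 : 1 + ((2 : ℝ) ^ c)⁻¹ ≤ Real.exp ((2 : ℝ) ^ c)⁻¹ := by
      have := Real.add_one_le_exp ((2 : ℝ) ^ c)⁻¹
      linarith
    calc (1 + ((2 : ℝ) ^ c)⁻¹) ^ (2 ^ c) ≤ (Real.exp ((2 : ℝ) ^ c)⁻¹) ^ (2 ^ c) :=
          pow_le_pow_left₀ (by positivity) h2 _
      _ = Real.exp 1 := by
          rw [← Real.exp_nat_mul]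
          congr 1
          push_cast
          exact mul_inv_cancel₀ hq.ne'
      _ ≤ 4 := by
          have := Real.exp_one_lt_d9
          linarith
  have h3 : m ≤ 2 ^ c * (m / 2 ^ c + 1) := by
    have h4 := Nat.div_add_mod m (2 ^ c)
    have h5 := Nat.mod_lt m (show 0 < 2 ^ c by positivity)
    rw [Nat.mul_add, Nat.mul_one]
    omega
  have h6 : (1 : ℝ) ≤ 1 + ((2 : ℝ) ^ c)⁻¹ := by
    have : (0 : ℝ) ≤ ((2 : ℝ) ^ c)⁻¹ := by positivity
    linarith
  calc (1 + ((2 : ℝ) ^ c)⁻¹) ^ m ≤ (1 + ((2 : ℝ) ^ c)⁻¹) ^ (2 ^ c * (m / 2 ^ c + 1)) :=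
        pow_le_pow_right₀ h6 h3
    _ = ((1 + ((2 : ℝ) ^ c)⁻¹) ^ (2 ^ c)) ^ (m / 2 ^ c + 1) := by rw [pow_mul]
    _ ≤ 4 ^ (m / 2 ^ c + 1) := pow_le_pow_left₀ (by positivity) h1 _

theorem small_sets {α : Type} [DecidableEq α] (W : Finset α) (c : ℕ) :
    (W.powerset.filter fun A => 2 ^ c * A.card ≤ W.card).card ≤
      2 ^ ((c + 2) * (W.card / 2 ^ c + 1)) := by
  obtain ⟨m, hm⟩ : ∃ m, m = W.card := ⟨_, rfl⟩
  obtain ⟨k, hk⟩ : ∃ k, k = m / 2 ^ c := ⟨_, rfl⟩
  obtain ⟨x, hx⟩ : ∃ x : ℝ, x = ((2 : ℝ) ^ c)⁻¹ := ⟨_, rfl⟩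
  have hx0 : 0 < x := by rw [hx]; positivity
  have hx1 : x ≤ 1 := by
    rw [hx]
    exact inv_le_one_of_one_le₀ (one_le_pow₀ (by norm_num))
  have h1 := Finset.sum_pow_mul_eq_add_pow x (1 : ℝ) W
  have h2 : ((W.powerset.filter fun A => 2 ^ c * A.card ≤ W.card).card : ℝ) * x ^ k ≤
      (x + 1) ^ W.card := by
    rw [← h1]
    calc ((W.powerset.filter fun A => 2 ^ c * A.card ≤ W.card).card : ℝ) * x ^ k
        = ∑ A ∈ W.powerset.filter (fun A => 2 ^ c * A.card ≤ W.card), x ^ k := by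
          rw [Finset.sum_const, nsmul_eq_mul]
      _ ≤ ∑ A ∈ W.powerset.filter (fun A => 2 ^ c * A.card ≤ W.card),
            x ^ A.card * 1 ^ (W.card - A.card) := by
          refine Finset.sum_le_sum fun A hA => ?_
          rw [one_pow, mul_one]
          have h3 := (Finset.mem_filter.1 hA).2
          have h4 : A.card ≤ k := by
            rw [hk, hm, Nat.le_div_iff_mul_le (by positivity), mul_comm]
            exact h3
          exact pow_le_pow_of_le_one hx0.le hx1 h4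
      _ ≤ ∑ A ∈ W.powerset, x ^ A.card * 1 ^ (W.card - A.card) :=
          Finset.sum_le_sum_of_subset_of_nonneg (Finset.filter_subset _ _)
            fun A _ _ => by positivity
  have h5 : (x + 1) ^ W.card ≤ 4 ^ (k + 1) := by
    rw [hx, add_comm, hk, hm]
    exact pow_bound c W.card
  have h6 : ((W.powerset.filter fun A => 2 ^ c * A.card ≤ W.card).card : ℝ) ≤
      (2 ^ c) ^ k * 4 ^ (k + 1) := by
    have h7 : ((2 : ℝ) ^ c) ^ k * x ^ k = 1 := by
      rw [← mul_pow, hx, mul_inv_cancel₀ (by positivity), one_pow]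
    calc ((W.powerset.filter fun A => 2 ^ c * A.card ≤ W.card).card : ℝ)
        = (2 ^ c) ^ k * (((W.powerset.filter fun A => 2 ^ c * A.card ≤ W.card).card : ℝ) *
            x ^ k) := by
          rw [mul_left_comm, h7, mul_one]
      _ ≤ (2 ^ c) ^ k * 4 ^ (k + 1) :=
          mul_le_mul_of_nonneg_left (h2.trans h5) (by positivity)
  have h8 : ((2 : ℝ) ^ c) ^ k * 4 ^ (k + 1) ≤ 2 ^ ((c + 2) * (k + 1)) := by
    have h9 : (4 : ℝ) = 2 ^ 2 := by norm_num
    rw [h9, ← pow_mul, ← pow_mul, ← pow_add]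
    apply pow_le_pow_right₀ (by norm_num)
    nlinarith
  rw [← hm, ← hk]
  rw [← hm] at h6
  have h10 := h6.trans h8
  exact_mod_cast h10

theorem choose_bound (c m b : ℕ) (h : m ≤ 2 ^ c * b) : m.choose b ≤ 2 ^ (c * b + 2 * b + 2) := by
  rcases Nat.lt_or_ge m b with hb | hb
  · rw [Nat.choose_eq_zero_of_lt hb]
    exact Nat.zero_le _
  obtain ⟨x, hx⟩ : ∃ x : ℝ, x = ((2 : ℝ) ^ c)⁻¹ := ⟨_, rfl⟩
  have hx0 : 0 < x := by rw [hx]; positivity
  have h1 : x ^ b * (m.choose b : ℝ) ≤ (x + 1) ^ m := by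
    rw [add_pow]
    have h2 := Finset.single_le_sum (s := Finset.range (m + 1))
      (f := fun i => x ^ i * 1 ^ (m - i) * (m.choose i : ℝ)) (fun i _ => by positivity)
      (Finset.mem_range.2 (Nat.lt_succ_of_le hb))
    simp only [one_pow, mul_one] at h2 ⊢
    exact h2
  have h3 : (x + 1) ^ m ≤ 4 ^ (b + 1) := by
    rw [hx, add_comm]
    refine (pow_bound c m).trans (pow_le_pow_right₀ (by norm_num) ?_)
    have : m / 2 ^ c ≤ b := Nat.div_le_of_le_mul h
    omega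
  have h4 : (m.choose b : ℝ) ≤ (2 ^ c) ^ b * 4 ^ (b + 1) := by
    have h7 : ((2 : ℝ) ^ c) ^ b * x ^ b = 1 := by
      rw [← mul_pow, hx, mul_inv_cancel₀ (by positivity), one_pow]
    calc (m.choose b : ℝ) = (2 ^ c) ^ b * (x ^ b * (m.choose b : ℝ)) := by
          rw [← mul_assoc, h7, one_mul]
      _ ≤ (2 ^ c) ^ b * 4 ^ (b + 1) := mul_le_mul_of_nonneg_left (h1.trans h3) (by positivity)
  have h5 : ((2 : ℝ) ^ c) ^ b * 4 ^ (b + 1) = 2 ^ (c * b + 2 * b + 2) := by
    have h9 : (4 : ℝ) = 2 ^ 2 := by norm_num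
    rw [h9, ← pow_mul, ← pow_mul, ← pow_add]
    congr 1
  rw [h5] at h4
  exact_mod_cast h4

private theorem one_sub_pow_base (r : ℕ) (hr : 1 ≤ r) : r ^ (r + 1) * 2 ≤ (r + 1) ^ (r + 1) := by
  have hr0 : (0 : ℝ) < r := by exact_mod_cast hr
  have h1 := one_add_mul_le_pow (a := 1 / (r : ℝ)) (by
    have : (0 : ℝ) ≤ 1 / (r : ℝ) := by positivity
    linarith) (r + 1)
  have h2 : (2 : ℝ) ≤ 1 + ((r + 1 : ℕ) : ℝ) * (1 / (r : ℝ)) := by
    have h3 : ((r + 1 : ℕ) : ℝ) * (1 / (r : ℝ)) = 1 + 1 / r := by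
      push_cast
      field_simp
    rw [h3]
    have : (0 : ℝ) ≤ 1 / (r : ℝ) := by positivity
    linarith
  have h4 : (r : ℝ) ^ (r + 1) * (1 + 1 / (r : ℝ)) ^ (r + 1) = ((r : ℝ) + 1) ^ (r + 1) := by
    rw [← mul_pow]
    congr 1
    field_simp
  have h5 : (r : ℝ) ^ (r + 1) * 2 ≤ ((r : ℝ) + 1) ^ (r + 1) := by
    rw [← h4]
    exact mul_le_mul_of_nonneg_left (h2.trans h1) (by positivity)
  exact_mod_cast h5

private theorem one_sub_pow_gen (r P : ℕ) (hr : 1 ≤ r) :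
    r ^ P * 2 ^ (P / (r + 1)) ≤ (r + 1) ^ P := by
  obtain ⟨k, hk⟩ : ∃ k, k = P / (r + 1) := ⟨_, rfl⟩
  obtain ⟨t, ht⟩ : ∃ t, t = P % (r + 1) := ⟨_, rfl⟩
  have hP : P = (r + 1) * k + t := by
    rw [hk, ht]
    exact (Nat.div_add_mod P (r + 1)).symm
  rw [← hk]
  have h1 : r ^ P * 2 ^ k = (r ^ (r + 1) * 2) ^ k * r ^ t := by
    rw [hP, pow_add, pow_mul, mul_pow]
    ring
  have h2 : (r + 1) ^ P = ((r + 1) ^ (r + 1)) ^ k * (r + 1) ^ t := by
    rw [← pow_mul, ← pow_add, ← hP]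
  rw [h1, h2]
  exact Nat.mul_le_mul (Nat.pow_le_pow_left (one_sub_pow_base r hr) k)
    (Nat.pow_le_pow_left (Nat.le_succ r) t)

theorem one_sub_pow (P : ℕ) : (2 ^ 20 - 1) ^ P * 2 ^ (P / 2 ^ 20) ≤ (2 ^ 20) ^ P := by
  have h := one_sub_pow_gen (2 ^ 20 - 1) P (by norm_num)
  have h1 : 2 ^ 20 - 1 + 1 = 2 ^ 20 := by norm_num
  rw [h1] at h
  exact h

end Pool.Agent.Lib.MP_293cc0_an.UB
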