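import Pool.Agent.Lib.MP_293cc0_an.Basic

/-!
# MP_293cc0_an, upper bound: definitions

A random graph on `Fin n` with edge probability `2⁻²⁰`: `ω` is uniform on `Om n`, the functions from pairs to `Fin (2 ^ 20)`; `x, y` are adjacent
if `ω` vanishes on the ordered pair `(min x y, max x y)`.

`GoodA ω L`: for every set `W` with at least `2 ^ 73 L` points there is a set `T` with at most `2 ^ 38 L` points, such that two different points outside `T` have at most
`|W| / 2 ^ 34` common neighbours in `W`.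
`GoodB ω L`: for such `W` the graph induced on `W` is not the union of `4 |W|` bicliques with sides of size at most `|W| / 2 ^ 32`.
-/

set_option autoImplicit false

namespace Pool.Agent.Lib.MP_293cc0_an.UB

open Finset

/-- the sample space -/
abbrev Om (n : ℕ) : Type := Fin n × Fin n → Fin (2 ^ 20)

/-- adjacency in the random graph -/
def adj {n : ℕ} (ω : Om n) (x y : Fin n) : Prop := x ≠ y ∧ ω (min x y, max x y) = 0

theorem adj_symm {n : ℕ} {ω : Om n} {x y : Fin n} (h : adj ω x y) : adj ω y x :=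
  ⟨h.1.symm, by rw [min_comm, max_comm]; exact h.2⟩

open Classical in
/-- few common neighbours -/
def GoodA {n : ℕ} (ω : Om n) (L : ℕ) : Prop :=
  ∀ W : Finset (Fin n), 2 ^ 73 * L ≤ W.card → ∃ T : Finset (Fin n), T.card ≤ 2 ^ 38 * L ∧
    ∀ x, x ∉ T → ∀ y, y ∉ T → x ≠ y →
      2 ^ 34 * (W.filter fun w => adj ω x w ∧ adj ω y w).card ≤ W.card

/-- no cheap coverings by small bicliques -/
def GoodB {n : ℕ} (ω : Om n) (L : ℕ) : Prop :=
  ∀ W : Finset (Fin n), 2 ^ 73 * L ≤ W.card → ∀ A B : Fin (4 * W.card) → Finset (Fin n),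
    (∀ j, A j ⊆ W ∧ B j ⊆ W ∧ 2 ^ 32 * (A j).card ≤ W.card ∧ 2 ^ 32 * (B j).card ≤ W.card) →
    (∀ j, ∀ a ∈ A j, ∀ b ∈ B j, adj ω a b) →
    ∃ x ∈ W, ∃ y ∈ W, adj ω x y ∧ ∀ j, ¬ (x ∈ A j ∧ y ∈ B j) ∧ ¬ (y ∈ A j ∧ x ∈ B j)

end Pool.Agent.Lib.MP_293cc0_an.UB
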