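import Pool.Agent.Lib.MP_293cc0_an.UB.Cnt

/-!
# MP_293cc0_an, upper bound, module PropA (250 lines)

`r = 2 ^ 37 L`. Suppose `GoodA ω L` fails at `W`, `m = |W| ≥ 2 ^ 73 L = 2 ^ 36 r`: for every `T` with at most `2 r` points there is a bad pair outside `T`: `x ≠ y` with more than `m / 2 ^ 34`
common neighbours in `W`. Greedily: there is an injective `z : Fin (2 r) → Fin n` (or two functions `x, y : Fin r → Fin n` with `2 r` different values) with bad pairs `(z (2 j), z (2 j + 1))`, `j < r`. Let `T` be the set of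
all `2 r` values, `b = m / 2 ^ 35 + 1`. The common neighbours of the pair `j` in `W \ T` are more than `m / 2 ^ 34 - 2 r ≥ m / 2 ^ 35` (real division; `2 r ≤ m / 2 ^ 35`), so at least `b`: there is
`D j ⊆ W \ T` with exactly `b` elements, adjacent to both. So `ω` vanishes on the set `E` of the `2 b r` coordinates of the pairs `{x_j, w}`, `{y_j, w}`, `w ∈ D j`
(all different: `w ∉ T`, so the unordered pair determines `x_j` (or `y_j`) and `w`).

COUNT. For given `W, z, D`: at most `|Om n| / 2 ^ (40 b r)` (`card_zero`). Number of the `D`: `(choose m b) ^ r ≤ 2 ^ ((37 b + 2) r)` (`choose_bound` with `c = 35`, `m ≤ 2 ^ 35 b`); of the `z`: `n ^ (2 r) ≤ 2 ^ (2 r L)`;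
of the `W` with `m` elements: `n ^ m ≤ 2 ^ (L m)` (images of functions `Fin m → Fin n`, or `Nat.choose_le_pow`-like). For one `m` the exponent is
`L m + 2 r L + (37 b + 2) r - 40 b r = L m + 2 r L + 2 r - 3 b r`, and `b r ≥ m r / 2 ^ 35 = 4 m L`, `2 r L + 2 r ≤ 4 r L ≤ m L`: exponent `≤ - 10 m L`. Sum over `m` (at most `n + 1 ≤ 2 ^ (L + 1)` values):
`≤ 2 ^ (L + 1 - 10 m L) ≤ 1 / 4` because `m ≥ 2 ^ 73`.
(Work in `ℕ`: for every `m` with `2 ^ 73 L ≤ m ≤ n` the number of the bad `ω` is `≤ |Om n| / 2 ^ (2 L + 4)`, in the form `number * 2 ^ (2 L + 4) ≤ |Om n|`.)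
-/

set_option autoImplicit false

namespace Pool.Agent.Lib.MP_293cc0_an.UB

open Finset

/-- the bad event for `W` -/
def EvA {n : ℕ} (W : Finset (Fin n)) (r b : ℕ) (ω : Om n) : Prop :=
  ∃ v : Fin r × Bool → Fin n, Function.Injective v ∧
    ∃ D : Fin r → Finset (Fin n), (∀ j, D j ⊆ W ∧ (D j).card = b) ∧ (∀ p j, v p ∉ D j) ∧
      ∀ j s, ∀ w ∈ D j, ω (min (v (j, s)) w, max (v (j, s)) w) = 0

theorem pa_greedy {n : ℕ} (r : ℕ) (P : Fin n → Fin n → Prop)
    (h : ∀ T : Finset (Fin n), T.card ≤ 2 * r → ∃ x, x ∉ T ∧ ∃ y, y ∉ T ∧ x ≠ y ∧ P x y) :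
    ∃ v : Fin r × Bool → Fin n, Function.Injective v ∧ ∀ j, P (v (j, true)) (v (j, false)) := by
  classical
  have key : ∀ k, k ≤ r → ∃ v : ℕ → Bool → Fin n,
      (∀ i < k, ∀ j < k, ∀ s t, v i s = v j t → i = j ∧ s = t) ∧
        ∀ j < k, P (v j true) (v j false) := by
    intro k
    induction k with
    | zero =>
      intro _
      obtain ⟨x, -⟩ := h ∅ (by simp)
      exact ⟨fun _ _ => x, fun i hi => absurd hi (Nat.not_lt_zero _),
        fun j hj => absurd hj (Nat.not_lt_zero _)⟩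
    | succ k ih =>
      intro hk
      obtain ⟨v, hv, hP⟩ := ih (by omega)
      obtain ⟨x, hx, y, hy, hxy, hPxy⟩ :=
        h ((Finset.range k ×ˢ (univ : Finset Bool)).image fun p => v p.1 p.2) (by
          refine Finset.card_image_le.trans ?_
          rw [Finset.card_product, Finset.card_range, Finset.card_univ, Fintype.card_bool]
          omega)
      have hx' : ∀ i < k, ∀ s, v i s ≠ x := by
        intro i hi s e
        exact hx (Finset.mem_image.2 ⟨(i, s), by simp [hi], e⟩)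
      have hy' : ∀ i < k, ∀ s, v i s ≠ y := by
        intro i hi s e
        exact hy (Finset.mem_image.2 ⟨(i, s), by simp [hi], e⟩)
      refine ⟨fun i s => if i = k then (if s then x else y) else v i s, ?_, ?_⟩
      · intro i hi j hj s t e
        by_cases h1 : i = k
        · by_cases h2 : j = k
          · refine ⟨by rw [h1, h2], ?_⟩
            simp only [h1, h2, if_true] at e
            cases s <;> cases t
            · rfl
            · exact absurd e.symm (by simpa using hxy)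
            · exact absurd e (by simpa using hxy)
            · rfl
          · simp only [h1, h2, if_true, if_false] at e
            exfalso
            cases s
            · exact hy' j (by omega) t (by simpa using e.symm)
            · exact hx' j (by omega) t (by simpa using e.symm)
        · by_cases h2 : j = k
          · simp only [h1, h2, if_true, if_false] at e
            exfalso
            cases t
            · exact hy' i (by omega) s (by simpa using e)
            · exact hx' i (by omega) s (by simpa using e)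
          · simp only [h1, h2, if_false] at e
            exact hv i (by omega) j (by omega) s t e
      · intro j hj
        by_cases h1 : j = k
        · simp only [h1, if_true]
          simpa using hPxy
        · simp only [h1, if_false]
          exact hP j (by omega)
  obtain ⟨v, hv, hP⟩ := key r le_rfl
  refine ⟨fun p => v p.1 p.2, ?_, fun j => hP j j.2⟩
  rintro ⟨i, s⟩ ⟨j, t⟩ e
  obtain ⟨h1, h2⟩ := hv i i.2 j j.2 s t e
  exact Prod.ext (Fin.ext h1) h2

theorem pa_minmax {α : Type} [LinearOrder α] {a b c d : α}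
    (h : (min a b, max a b) = (min c d, max c d)) : (a = c ∧ b = d) ∨ (a = d ∧ b = c) := by
  obtain ⟨h1, h2⟩ := Prod.mk.inj h
  rcases le_total a b with h3 | h3 <;> rcases le_total c d with h4 | h4
  · rw [min_eq_left h3, min_eq_left h4] at h1
    rw [max_eq_right h3, max_eq_right h4] at h2
    exact Or.inl ⟨h1, h2⟩
  · rw [min_eq_left h3, min_eq_right h4] at h1
    rw [max_eq_right h3, max_eq_left h4] at h2
    exact Or.inr ⟨h1, h2⟩
  · rw [min_eq_right h3, min_eq_left h4] at h1
    rw [max_eq_left h3, max_eq_right h4] at h2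
    exact Or.inr ⟨h2, h1⟩
  · rw [min_eq_right h3, min_eq_right h4] at h1
    rw [max_eq_left h3, max_eq_left h4] at h2
    exact Or.inl ⟨h2, h1⟩

open Classical in
theorem pa_event {n L : ℕ} (ω : Om n) (h : ¬ GoodA ω L) :
    ∃ W : Finset (Fin n), 2 ^ 73 * L ≤ W.card ∧ EvA W (2 ^ 37 * L) (W.card / 2 ^ 35 + 1) ω := by
  unfold GoodA at h
  push Not at h
  obtain ⟨W, hW, h⟩ := h
  refine ⟨W, hW, ?_⟩
  obtain ⟨v, hv, hP⟩ := pa_greedy (2 ^ 37 * L)
    (fun x y => W.card < 2 ^ 34 * (W.filter fun w => adj ω x w ∧ adj ω y w).card)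
    (fun T hT => by
      obtain ⟨x, hx, y, hy, hxy, hc⟩ := h T (by omega)
      exact ⟨x, hx, y, hy, hxy, hc⟩)
  set T : Finset (Fin n) := univ.image v with hTdef
  have hT : T.card ≤ 2 * (2 ^ 37 * L) := by
    refine Finset.card_image_le.trans ?_
    rw [Finset.card_univ, Fintype.card_prod, Fintype.card_fin, Fintype.card_bool]
    omega
  have hD : ∀ j : Fin (2 ^ 37 * L), ∃ D ⊆ (W.filter fun w => adj ω (v (j, true)) w ∧
      adj ω (v (j, false)) w) \ T, D.card = W.card / 2 ^ 35 + 1 := by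
    intro j
    apply Finset.exists_subset_card_eq
    have h1 := hP j
    have h2 := Finset.le_card_sdiff T (W.filter fun w => adj ω (v (j, true)) w ∧
      adj ω (v (j, false)) w)
    omega
  choose D hD1 hD2 using hD
  refine ⟨v, hv, D, fun j => ⟨?_, hD2 j⟩, ?_, ?_⟩
  · exact (hD1 j).trans (Finset.sdiff_subset.trans (Finset.filter_subset _ _))
  · intro p j hp
    have h1 := (Finset.mem_sdiff.1 (hD1 j hp)).2
    exact h1 (Finset.mem_image.2 ⟨p, Finset.mem_univ _, rfl⟩)
  · intro j s w hw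
    have h1 := (Finset.mem_filter.1 (Finset.mem_sdiff.1 (hD1 j hw)).1).2
    cases s
    · exact h1.2.2
    · exact h1.1.2

open Classical in
theorem pa_fix {n : ℕ} (r b : ℕ) (v : Fin r × Bool → Fin n) (hv : Function.Injective v)
    (D : Fin r → Finset (Fin n)) (hD : ∀ j, (D j).card = b) (hvD : ∀ p j, v p ∉ D j) :
    (univ.filter fun ω : Om n => ∀ j s, ∀ w ∈ D j,
      ω (min (v (j, s)) w, max (v (j, s)) w) = 0).card * (2 ^ 20) ^ (2 * b * r) =
      Fintype.card (Om n) := by
  let S : Finset (Σ _ : Fin r × Bool, Fin n) := (univ : Finset (Fin r × Bool)).sigma fun q => D q.1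
  let φ : (Σ _ : Fin r × Bool, Fin n) → Fin n × Fin n := fun q => (min (v q.1) q.2, max (v q.1) q.2)
  have hinj : Set.InjOn φ (S : Set (Σ _ : Fin r × Bool, Fin n)) := by
    rintro ⟨p, w⟩ hp ⟨p', w'⟩ hp' e
    have hw : w ∈ D p.1 := (Finset.mem_sigma.1 hp).2
    have hw' : w' ∈ D p'.1 := (Finset.mem_sigma.1 hp').2
    rcases pa_minmax e with ⟨h1, h2⟩ | ⟨h1, h2⟩
    · have h3 : p = p' := hv h1
      subst h3
      have h4 : w = w' := h2
      rw [h4]
    · exfalso
      have h3 : v p = w' := h1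
      exact hvD p p'.1 (h3 ▸ hw')
  have hcard : (S.image φ).card = 2 * b * r := by
    rw [Finset.card_image_of_injOn hinj, Finset.card_sigma]
    simp only [hD, Finset.sum_const, Finset.card_univ, Fintype.card_prod, Fintype.card_fin,
      Fintype.card_bool, smul_eq_mul]
    ring
  have h1 := card_zero (n := n) (S.image φ)
  rw [hcard] at h1
  rw [← h1]
  congr 2
  ext ω
  simp only [Finset.mem_filter, Finset.mem_univ, true_and]
  constructor
  · intro h e he
    obtain ⟨⟨p, w⟩, hp, rfl⟩ := Finset.mem_image.1 he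
    exact h p.1 p.2 w (Finset.mem_sigma.1 hp).2
  · intro h j s w hw
    exact h _ (Finset.mem_image.2 ⟨⟨(j, s), w⟩, Finset.mem_sigma.2 ⟨Finset.mem_univ _, hw⟩, rfl⟩)

open Classical in
theorem pa_count {n : ℕ} (W : Finset (Fin n)) (r b : ℕ) :
    (univ.filter fun ω : Om n => EvA W r b ω).card * (2 ^ 20) ^ (2 * b * r) ≤
      (n ^ (2 * r) * (W.card.choose b) ^ r) * Fintype.card (Om n) := by
  let I : Finset ((Fin r × Bool → Fin n) × (Fin r → Finset (Fin n))) :=
    (univ : Finset (Fin r × Bool → Fin n)) ×ˢ Fintype.piFinset fun _ : Fin r => W.powersetCard b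
  let Z : (Fin r × Bool → Fin n) × (Fin r → Finset (Fin n)) → Finset (Om n) := fun p =>
    univ.filter fun ω : Om n => (Function.Injective p.1 ∧ ∀ q j, p.1 q ∉ p.2 j) ∧
      ∀ j s, ∀ w ∈ p.2 j, ω (min (p.1 (j, s)) w, max (p.1 (j, s)) w) = 0
  have hsub : (univ.filter fun ω : Om n => EvA W r b ω) ⊆ I.biUnion Z := by
    intro ω hω
    obtain ⟨v, hv, D, hD, hvD, h0⟩ := (Finset.mem_filter.1 hω).2
    refine Finset.mem_biUnion.2 ⟨(v, D), ?_, ?_⟩
    · refine Finset.mem_product.2 ⟨Finset.mem_univ _, ?_⟩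
      rw [Fintype.mem_piFinset]
      intro j
      exact Finset.mem_powersetCard.2 (hD j)
    · exact Finset.mem_filter.2 ⟨Finset.mem_univ _, ⟨hv, hvD⟩, h0⟩
  have hZ : ∀ p ∈ I, (Z p).card * (2 ^ 20) ^ (2 * b * r) ≤ Fintype.card (Om n) := by
    intro p hp
    have hpD : ∀ j, (p.2 j).card = b := by
      intro j
      have := (Finset.mem_product.1 hp).2
      rw [Fintype.mem_piFinset] at this
      exact (Finset.mem_powersetCard.1 (this j)).2
    by_cases hc : Function.Injective p.1 ∧ ∀ q j, p.1 q ∉ p.2 j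
    · rw [← pa_fix r b p.1 hc.1 p.2 hpD hc.2]
      refine Nat.mul_le_mul_right _ (Finset.card_le_card ?_)
      intro ω hω
      exact Finset.mem_filter.2 ⟨Finset.mem_univ _, (Finset.mem_filter.1 hω).2.2⟩
    · have : Z p = ∅ := by
        apply Finset.filter_false_of_mem
        intro ω _ h
        exact hc h.1
      rw [this, Finset.card_empty, zero_mul]
      exact Nat.zero_le _
  have hI : I.card = n ^ (2 * r) * (W.card.choose b) ^ r := by
    rw [Finset.card_product, Fintype.card_piFinset, Finset.card_univ, Fintype.card_fun,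
      Fintype.card_prod, Fintype.card_fin, Fintype.card_fin, Fintype.card_bool]
    simp only [Finset.card_powersetCard, Finset.prod_const, Finset.card_univ, Fintype.card_fin]
    rw [mul_comm r 2]
  calc (univ.filter fun ω : Om n => EvA W r b ω).card * (2 ^ 20) ^ (2 * b * r)
      ≤ (∑ p ∈ I, (Z p).card) * (2 ^ 20) ^ (2 * b * r) :=
        Nat.mul_le_mul_right _ ((Finset.card_le_card hsub).trans Finset.card_biUnion_le)
    _ = ∑ p ∈ I, (Z p).card * (2 ^ 20) ^ (2 * b * r) := Finset.sum_mul _ _ _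
    _ ≤ ∑ _p ∈ I, Fintype.card (Om n) := Finset.sum_le_sum hZ
    _ = (n ^ (2 * r) * (W.card.choose b) ^ r) * Fintype.card (Om n) := by
        rw [Finset.sum_const, smul_eq_mul, hI]

open Classical in
theorem pa_W {n L : ℕ} (hn : n ≤ 2 ^ L) (hL : 1 ≤ L) (W : Finset (Fin n))
    (hW : 2 ^ 73 * L ≤ W.card) :
    (univ.filter fun ω : Om n => EvA W (2 ^ 37 * L) (W.card / 2 ^ 35 + 1) ω).card *
      2 ^ (L * W.card + 4) ≤ Fintype.card (Om n) := by
  have h1 := pa_count W (2 ^ 37 * L) (W.card / 2 ^ 35 + 1)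
  set X := (univ.filter fun ω : Om n => EvA W (2 ^ 37 * L) (W.card / 2 ^ 35 + 1) ω).card with hX
  set N := Fintype.card (Om n) with hN
  set m := W.card with hm
  generalize hb : m / 2 ^ 35 + 1 = b at h1
  generalize hr : 2 ^ 37 * L = r at h1
  have hmb : m ≤ 2 ^ 35 * b := by omega
  have h2 : n ^ (2 * r) ≤ 2 ^ (L * (2 * r)) := by
    rw [pow_mul 2 L]
    exact Nat.pow_le_pow_left hn _
  have h3 : (m.choose b) ^ r ≤ 2 ^ ((35 * b + 2 * b + 2) * r) := by
    rw [pow_mul 2 (35 * b + 2 * b + 2)]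
    exact Nat.pow_le_pow_left (choose_bound 35 m b hmb) _
  have hexp : L * (2 * r) + (35 * b + 2 * b + 2) * r + (L * m + 4) ≤ 20 * (2 * b * r) := by
    have e1 : 4 * (L * m) ≤ b * r := by
      have : b * r = 4 * (L * (2 ^ 35 * b)) := by rw [← hr]; ring
      rw [this]
      exact Nat.mul_le_mul_left _ (Nat.mul_le_mul_left _ hmb)
    have e2 : 2 * r ≤ m := by omega
    have e3 : L * (2 * r) ≤ L * m := Nat.mul_le_mul_left _ e2
    have e4 : m ≤ L * m := Nat.le_mul_of_pos_left _ hL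
    have e5 : 4 ≤ m := by omega
    have e6 : (35 * b + 2 * b + 2) * r = 37 * (b * r) + 2 * r := by ring
    have e7 : 20 * (2 * b * r) = 40 * (b * r) := by ring
    rw [e6, e7]
    omega
  have h4 : X * 2 ^ (20 * (2 * b * r)) ≤
      2 ^ (L * (2 * r) + (35 * b + 2 * b + 2) * r) * N := by
    rw [pow_mul 2 20, pow_add]
    exact h1.trans (Nat.mul_le_mul_right _ (Nat.mul_le_mul h2 h3))
  have h5 : X * 2 ^ (L * m + 4) * 2 ^ (L * (2 * r) + (35 * b + 2 * b + 2) * r) ≤
      N * 2 ^ (L * (2 * r) + (35 * b + 2 * b + 2) * r) := by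
    calc X * 2 ^ (L * m + 4) * 2 ^ (L * (2 * r) + (35 * b + 2 * b + 2) * r)
        = X * 2 ^ (L * (2 * r) + (35 * b + 2 * b + 2) * r + (L * m + 4)) := by
          rw [mul_assoc, ← pow_add, add_comm (L * m + 4)]
      _ ≤ X * 2 ^ (20 * (2 * b * r)) :=
          Nat.mul_le_mul_left _ (Nat.pow_le_pow_right (by norm_num) hexp)
      _ ≤ _ := by rw [mul_comm N]; exact h4
  exact Nat.le_of_mul_le_mul_right h5 (by positivity)

open Classical in
theorem countA {n L : ℕ} (hn : n ≤ 2 ^ L) (hL : 1 ≤ L) :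
    4 * (univ.filter fun ω : Om n => ¬ GoodA ω L).card ≤ Fintype.card (Om n) := by
  set N := Fintype.card (Om n) with hN
  let F : Finset (Finset (Fin n)) := (univ : Finset (Fin n)).powerset.filter
    fun W => 2 ^ 73 * L ≤ W.card
  let Y : Finset (Fin n) → Finset (Om n) := fun W =>
    univ.filter fun ω : Om n => EvA W (2 ^ 37 * L) (W.card / 2 ^ 35 + 1) ω
  have hsub : (univ.filter fun ω : Om n => ¬ GoodA ω L) ⊆ F.biUnion Y := by
    intro ω hω
    obtain ⟨W, hW, hE⟩ := pa_event ω (Finset.mem_filter.1 hω).2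
    exact Finset.mem_biUnion.2 ⟨W, Finset.mem_filter.2 ⟨Finset.mem_powerset.2
      (Finset.subset_univ _), hW⟩, Finset.mem_filter.2 ⟨Finset.mem_univ _, hE⟩⟩
  have h1 : ((univ.filter fun ω : Om n => ¬ GoodA ω L).card : ℝ) ≤ ∑ W ∈ F, ((Y W).card : ℝ) := by
    exact_mod_cast (Finset.card_le_card hsub).trans Finset.card_biUnion_le
  have h2 : ∀ W ∈ F, ((Y W).card : ℝ) ≤ (N : ℝ) / 16 * ((1 / 2 : ℝ) ^ L) ^ W.card := by
    intro W hW
    have h3 := pa_W hn hL W (Finset.mem_filter.1 hW).2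
    have h4 : ((Y W).card : ℝ) * (2 ^ (L * W.card) * 16) ≤ N := by
      have : (((Y W).card * 2 ^ (L * W.card + 4) : ℕ) : ℝ) ≤ N := by exact_mod_cast h3
      push_cast at this
      rw [pow_add] at this
      norm_num at this
      linarith
    rw [← pow_mul, one_div, inv_pow, div_mul_eq_mul_div, ← div_eq_mul_inv, div_div,
      le_div_iff₀ (by positivity)]
    exact h4
  have h3 : ∑ W ∈ (univ : Finset (Fin n)).powerset, ((1 / 2 : ℝ) ^ L) ^ W.card ≤ 4 := by
    have h4 := Finset.sum_pow_mul_eq_add_pow ((1 / 2 : ℝ) ^ L) 1 (univ : Finset (Fin n))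
    simp only [one_pow, mul_one] at h4
    rw [h4, Finset.card_univ, Fintype.card_fin]
    have h5 : (1 / 2 : ℝ) ^ L + 1 ≤ Real.exp ((1 / 2 : ℝ) ^ L) := Real.add_one_le_exp _
    have h6 : ((1 / 2 : ℝ) ^ L + 1) ^ n ≤ Real.exp ((1 / 2 : ℝ) ^ L) ^ n :=
      pow_le_pow_left₀ (by positivity) h5 n
    have h7 : Real.exp ((1 / 2 : ℝ) ^ L) ^ n = Real.exp (n * (1 / 2 : ℝ) ^ L) := by
      rw [← Real.exp_nat_mul]
    have h8 : (n : ℝ) * (1 / 2 : ℝ) ^ L ≤ 1 := by
      have : (n : ℝ) ≤ 2 ^ L := by exact_mod_cast hn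
      rw [one_div, inv_pow, ← div_eq_mul_inv, div_le_one (by positivity)]
      exact this
    have h9 : Real.exp (n * (1 / 2 : ℝ) ^ L) ≤ Real.exp 1 := Real.exp_le_exp.2 h8
    have h10 := Real.exp_one_lt_d9
    rw [h7] at h6
    linarith
  have h4 : ∑ W ∈ F, ((Y W).card : ℝ) ≤ (N : ℝ) / 16 * 4 := by
    calc ∑ W ∈ F, ((Y W).card : ℝ)
        ≤ ∑ W ∈ F, (N : ℝ) / 16 * ((1 / 2 : ℝ) ^ L) ^ W.card := Finset.sum_le_sum h2
      _ ≤ ∑ W ∈ (univ : Finset (Fin n)).powerset, (N : ℝ) / 16 * ((1 / 2 : ℝ) ^ L) ^ W.card :=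
          Finset.sum_le_sum_of_subset_of_nonneg (Finset.filter_subset _ _)
            (fun _ _ _ => by positivity)
      _ = (N : ℝ) / 16 * ∑ W ∈ (univ : Finset (Fin n)).powerset, ((1 / 2 : ℝ) ^ L) ^ W.card := by
          rw [Finset.mul_sum]
      _ ≤ (N : ℝ) / 16 * 4 := mul_le_mul_of_nonneg_left h3 (by positivity)
  have h5 : (4 : ℝ) * ((univ.filter fun ω : Om n => ¬ GoodA ω L).card : ℝ) ≤ N := by
    linarith
  exact_mod_cast h5

end Pool.Agent.Lib.MP_293cc0_an.UB
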